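import Pool.Agent.H56.Fb3
namespace Pool.Agent.Results.MP_1698af_al.Full

/-- The right Cayley graph of the free group on `B`: `g` is joined to `g * b` for `b ∈ B`. -/
def cay (B : Type*) : SimpleGraph (FreeGroup B) :=
  SimpleGraph.fromRel (fun g h => ∃ b : B, h = g * FreeGroup.of b)

/-- `a ∈ K[F]` is supported on `T`: every group element with nonzero coefficient lies in `T`. -/
def SuppOn {K : Type*} [Field K] {B : Type*} (T : Set (FreeGroup B))
    (a : MonoidAlgebra K (FreeGroup B)) : Prop :=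
  ∀ g, a.coeff g ≠ 0 → g ∈ T

/-- `S` is a basis of the right ideal `I`: a free generating set of `I` as a right module
(right modules are modules over the opposite ring, `op a • x = x * a`). -/
def IsBasisOf {A : Type*} [Ring A] (I : Submodule Aᵐᵒᵖ A) (S : Set A) : Prop :=
  LinearIndepOn Aᵐᵒᵖ id S ∧ Submodule.span Aᵐᵒᵖ S = I

open Pool.Agent.H56.Fb1 Pool.Agent.H56.Fb2 Pool.Agent.H56.Fb3 in
theorem result (K : Type*) [Field K] (B : Type*) (T : (cay B).Subgraph) (hT : T.Connected)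
    (I : Submodule (MonoidAlgebra K (FreeGroup B))ᵐᵒᵖ (MonoidAlgebra K (FreeGroup B)))
    (hI : Submodule.span (MonoidAlgebra K (FreeGroup B))ᵐᵒᵖ {a | a ∈ I ∧ SuppOn T.verts a} = I)
    (f : MonoidAlgebra K (FreeGroup B)) (hf : f ∈ I) (hfT : SuppOn T.verts f)
    (hprim : ∃ S, IsBasisOf I S ∧ f ∈ S) :
    ∃ S, IsBasisOf I S ∧ f ∈ S ∧ ∀ a ∈ S, SuppOn T.verts a := by
  have hc : ∀ t ∈ T.verts, ∀ t' ∈ T.verts, Relation.ReflTransGen (Adj T.verts) t t' := by
    intro t ht t' ht'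
    have h1 := (SimpleGraph.reachable_iff_reflTransGen _ _).1
      (hT.coe.preconnected ⟨t, ht⟩ ⟨t', ht'⟩)
    have key : ∀ x y : T.verts, Relation.ReflTransGen T.coe.Adj x y →
        Relation.ReflTransGen (Adj T.verts) x.1 y.1 := by
      intro x y h
      induction h with
      | refl => exact .refl
      | @tail a b _ hab ih =>
        refine ih.tail ?_
        have h2 : (cay B).Adj a.1 b.1 := T.adj_sub hab
        rcases ((SimpleGraph.fromRel_adj _ _ _).1 h2).2 with ⟨c, e⟩ | ⟨c, e⟩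
        · exact ⟨a.2, b.2, (c, true), e⟩
        · exact Adj.symm ⟨b.2, a.2, (c, true), e⟩
    exact key _ _ h1
  obtain ⟨S0, ⟨hind, hsp⟩, hfS⟩ := hprim
  have hsp' : Submodule.span (AA K B)ᵐᵒᵖ (Set.range (fun x : S0 => id x.1)) = I := by
    rw [← hsp]; simp
  let r : I →ₗ[(AA K B)ᵐᵒᵖ] (AA K B)ᵐᵒᵖ :=
    (Finsupp.lapply (⟨f, hfS⟩ : S0)).comp
      ((LinearIndependent.repr hind).comp (LinearEquiv.ofEq _ _ hsp'.symm).toLinearMap)
  have hr : r ⟨f, hf⟩ = 1 := by
    have := LinearIndependent.repr_eq_single hind ⟨f, hfS⟩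
      (LinearEquiv.ofEq _ _ hsp'.symm ⟨f, hf⟩) rfl
    show (LinearIndependent.repr hind (LinearEquiv.ofEq _ _ hsp'.symm ⟨f, hf⟩)) ⟨f, hfS⟩ = 1
    rw [this, Finsupp.single_eq_same]
  let r' : I.restrictScalars K →ₗ[K] AA K B :=
    { toFun := fun x => (r ⟨x.1, x.2⟩).unop
      map_add' := fun x y => by
        rw [← MulOpposite.unop_add, ← map_add]; rfl
      map_smul' := fun c x => by
        rw [RingHom.id_apply, ← MulOpposite.unop_smul, ← LinearMap.map_smul_of_tower]; rfl }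
  obtain ⟨ρ, hρ⟩ := LinearMap.exists_extend r'
  have hρa : ∀ x (hx : x ∈ I), ρ x = (r ⟨x, hx⟩).unop := fun x hx =>
    LinearMap.congr_fun hρ ⟨x, hx⟩
  obtain ⟨S, h1, h2, h3, h4⟩ := main I T.verts hc f ⟨hf, hfT⟩ ρ
    (by rw [hρa f hf, hr]; rfl) (by
      intro x hx a
      have hxa : x * a ∈ I := I.smul_mem (MulOpposite.op a) hx
      have e : (⟨x * a, hxa⟩ : I) = MulOpposite.op a • (⟨x, hx⟩ : I) := rfl
      rw [hρa _ hxa, hρa x hx, e, map_smul, smul_eq_mul, MulOpposite.unop_mul,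
        MulOpposite.unop_op])
  refine ⟨S, ⟨h3, le_antisymm (Submodule.span_le.2 fun x hx => (h2 hx).1) ?_⟩, h1,
    fun a ha => (h2 ha).2⟩
  rw [← hI]
  exact Submodule.span_le.2 fun x hx => h4 x hx

end Pool.Agent.Results.MP_1698af_al.Full
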